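import Mathlib
import Pool.Agent.H534R3.Rot

/-!
# The connectivity bound for Stirling complexes is sharp for odd `n`

For odd `n ≥ 3` the Stirling complex `St(n)` is not `(n-1)/2`-connected.
-/

set_option autoImplicit false

namespace Pool.Agent.Results.MP_2b5625_co.NotConnected

open Finset Metric

/-- A set of squares `(i, j)` (column `i`, row `j`) is a placement of non-attacking rooks if no two
of its squares share a row or a column. -/
def NonAttacking {n : ℕ} (s : Finset (Fin n × Fin n)) : Prop :=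
  ∀ p ∈ s, ∀ q ∈ s, p ≠ q → p.1 ≠ q.1 ∧ p.2 ≠ q.2

/-- The faces of the Stirling complex `St(n)`: the non-attacking rook placements on the triangular
board of the squares `(i, j)` with `i ≤ j`. -/
def stirling (n : ℕ) : Set (Finset (Fin n × Fin n)) :=
  {s | (∀ p ∈ s, p.1 ≤ p.2) ∧ NonAttacking s}

open Classical in
/-- The geometric realisation of a simplicial complex `K` with vertices in the finite type `V`: the
functions `x : V → ℝ` (barycentric coordinates) which are nonnegative, have sum `1`, and whose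
support is a face of `K`. -/
def realization {V : Type} [Fintype V] (K : Set (Finset V)) : Set (V → ℝ) :=
  {x | (∀ v, 0 ≤ x v) ∧ ∑ v, x v = 1 ∧ univ.filter (fun v => x v ≠ 0) ∈ K}

/-- A space is `k`-connected if it is nonempty and each continuous map from the sphere `S^i`,
`0 ≤ i ≤ k`, to it is homotopic to a constant map (that is, the homotopy groups `π_i` vanish
for `0 ≤ i ≤ k`). -/
def IsKConnected (X : Type) [TopologicalSpace X] (k : ℕ) : Prop :=
  Nonempty X ∧ ∀ i ≤ k, ∀ f : C(sphere (0 : EuclideanSpace ℝ (Fin (i + 1))) 1, X), f.Nullhomotopic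

variable {m : ℕ}

/-- the squares of a maximal placement -/
def sa (m : ℕ) (i : Fin (m + 1)) : Fin (2 * m + 1) × Fin (2 * m + 1) :=
  (⟨i, by omega⟩, ⟨m + i, by omega⟩)

/-- the opposite vertices of the cross polytope -/
def sb (m : ℕ) (i : Fin (m + 1)) : Fin (2 * m + 1) × Fin (2 * m + 1) :=
  if (i : ℕ) < m then (⟨i, by omega⟩, ⟨i, by omega⟩) else (⟨2 * m, by omega⟩, ⟨2 * m, by omega⟩)

theorem sa_fst (i : Fin (m + 1)) : ((sa m i).1 : ℕ) = i := rfl
theorem sa_snd (i : Fin (m + 1)) : ((sa m i).2 : ℕ) = m + i := rfl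

theorem sb_fst (i : Fin (m + 1)) : ((sb m i).1 : ℕ) = if (i : ℕ) < m then (i : ℕ) else 2 * m := by
  unfold sb; split_ifs <;> rfl

theorem sb_snd (i : Fin (m + 1)) : ((sb m i).2 : ℕ) = if (i : ℕ) < m then (i : ℕ) else 2 * m := by
  unfold sb; split_ifs <;> rfl

theorem sa_inj : Function.Injective (sa m) := by
  intro i j h
  have := congrArg (fun p => (p.1 : ℕ)) h
  simp only [sa_fst] at this
  exact Fin.ext this

theorem sb_inj : Function.Injective (sb m) := by
  intro i j h
  have := congrArg (fun p => (p.1 : ℕ)) h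
  simp only [sb_fst] at this
  apply Fin.ext
  have hi := i.2
  have hj := j.2
  split_ifs at this <;> omega

theorem sa_ne_sb (hm : 1 ≤ m) (i j : Fin (m + 1)) : sa m i ≠ sb m j := by
  intro h
  have h1 := congrArg (fun p => (p.1 : ℕ)) h
  have h2 := congrArg (fun p => (p.2 : ℕ)) h
  simp only [sb_fst, sb_snd, sa_fst, sa_snd] at h1 h2
  have hi := i.2
  have hj := j.2
  split_ifs at h1 h2 <;> omega

/-- the placement is maximal -/
theorem facet {t : Finset (Fin (2 * m + 1) × Fin (2 * m + 1))} (ht : t ∈ stirling (2 * m + 1))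
    (h : ∀ i, sa m i ∈ t) : ∀ p ∈ t, ∃ i, p = sa m i := by
  intro p hp
  by_contra hcon
  push Not at hcon
  have hle : (p.1 : ℕ) ≤ p.2 := ht.1 p hp
  have hp2 := p.2.2
  by_cases hc : (p.1 : ℕ) ≤ m
  · have h1 := ht.2 p hp (sa m ⟨p.1, by omega⟩) (h _) (hcon _)
    exact h1.1 (Fin.ext (by rw [sa_fst]))
  · have h1 := ht.2 p hp (sa m ⟨(p.2 : ℕ) - m, by omega⟩) (h _) (hcon _)
    exact h1.2 (Fin.ext (by rw [sa_snd]; simp only; omega))

/-- the sum of the absolute values of the coordinates -/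
noncomputable def N1 (y : EuclideanSpace ℝ (Fin (m + 1))) : ℝ := ∑ i, |y i|

/-- the unnormalised map -/
noncomputable def pre (y : EuclideanSpace ℝ (Fin (m + 1)))
    (v : Fin (2 * m + 1) × Fin (2 * m + 1)) : ℝ :=
  ∑ i, ((if v = sa m i then max (y i) 0 else 0) + (if v = sb m i then max (-(y i)) 0 else 0))

theorem pre_nonneg (y : EuclideanSpace ℝ (Fin (m + 1))) (v) : 0 ≤ pre y v := by
  refine Finset.sum_nonneg fun i _ => ?_
  split_ifs <;> positivity

theorem pre_sum (y : EuclideanSpace ℝ (Fin (m + 1))) : ∑ v, pre y v = N1 y := by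
  unfold pre N1
  rw [Finset.sum_comm]
  refine Finset.sum_congr rfl fun i _ => ?_
  rw [Finset.sum_add_distrib, Finset.sum_ite_eq' univ (sa m i), Finset.sum_ite_eq' univ (sb m i)]
  simp only [mem_univ, if_true]
  rcases le_total 0 (y i) with h | h
  · rw [max_eq_left h, max_eq_right (by linarith), abs_of_nonneg h, add_zero]
  · rw [max_eq_right h, max_eq_left (by linarith), abs_of_nonpos h, zero_add]

theorem pre_sa (hm : 1 ≤ m) (y : EuclideanSpace ℝ (Fin (m + 1))) (j : Fin (m + 1)) :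
    pre y (sa m j) = max (y j) 0 := by
  unfold pre
  rw [Finset.sum_eq_single j]
  · rw [if_pos rfl, if_neg (sa_ne_sb hm j j), add_zero]
  · intro i _ hi
    rw [if_neg (fun h => hi (sa_inj h).symm), if_neg (sa_ne_sb hm j i), add_zero]
  · intro h; exact absurd (mem_univ _) h

theorem pre_ne {y : EuclideanSpace ℝ (Fin (m + 1))} {v} (h : pre y v ≠ 0) :
    ∃ i, (v = sa m i ∧ 0 < y i) ∨ (v = sb m i ∧ y i < 0) := by
  by_contra hcon
  push Not at hcon
  apply h
  refine Finset.sum_eq_zero fun i _ => ?_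
  obtain ⟨h1, h2⟩ := hcon i
  split_ifs with ha hb hb
  · rw [max_eq_right (h1 ha), max_eq_right (by linarith [h2 hb]), add_zero]
  · rw [max_eq_right (h1 ha), add_zero]
  · rw [max_eq_right (by linarith [h2 hb]), add_zero]
  · rw [add_zero]

theorem N1_pos {y : EuclideanSpace ℝ (Fin (m + 1))} (hy : y ∈ sphere 0 1) : 0 < N1 y := by
  have h0 : 0 ≤ N1 y := Finset.sum_nonneg fun i _ => abs_nonneg _
  refine lt_of_le_of_ne h0 fun h => ?_
  have h1 : ∀ i ∈ univ, |y i| = 0 :=
    (Finset.sum_eq_zero_iff_of_nonneg fun i _ => abs_nonneg _).1 h.symm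
  have h2 : y = 0 := by
    ext i
    exact abs_eq_zero.1 (h1 i (mem_univ i))
  rw [h2, mem_sphere_zero_iff_norm, norm_zero] at hy
  exact zero_ne_one hy

theorem pre_mem (hm : 1 ≤ m) {y : EuclideanSpace ℝ (Fin (m + 1))} (hy : y ∈ sphere 0 1) :
    (fun v => (N1 y)⁻¹ * pre y v) ∈ realization (stirling (2 * m + 1)) := by
  have hN := N1_pos hy
  refine ⟨fun v => mul_nonneg (inv_nonneg.2 hN.le) (pre_nonneg y v), ?_, ?_⟩
  · rw [← Finset.mul_sum, pre_sum, inv_mul_cancel₀ hN.ne']
  · have key : ∀ p ∈ univ.filter (fun v => (N1 y)⁻¹ * pre y v ≠ 0),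
        ∃ i, (p = sa m i ∧ 0 < y i) ∨ (p = sb m i ∧ y i < 0) := by
      intro p hp
      rw [mem_filter] at hp
      exact pre_ne (right_ne_zero_of_mul hp.2)
    refine ⟨?_, ?_⟩
    · intro p hp
      obtain ⟨i, ⟨rfl, _⟩ | ⟨rfl, _⟩⟩ := key p hp
      · show ((sa m i).1 : ℕ) ≤ (sa m i).2
        rw [sa_fst, sa_snd]; omega
      · show ((sb m i).1 : ℕ) ≤ (sb m i).2
        rw [sb_fst, sb_snd]
    · intro p hp q hq hpq
      obtain ⟨i, hi⟩ := key p hp
      obtain ⟨j, hj⟩ := key q hq
      have hi2 := i.2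
      have hj2 := j.2
      have e1 : ∀ a b : Fin (2 * m + 1), ((a : ℕ) ≠ b) → a ≠ b := fun a b h h' => h (by rw [h'])
      rcases hi with ⟨rfl, hi⟩ | ⟨rfl, hi⟩ <;> rcases hj with ⟨rfl, hj⟩ | ⟨rfl, hj⟩
      · have hij : (i : ℕ) ≠ j := fun h => hpq (by rw [Fin.ext h])
        exact ⟨e1 _ _ (by rw [sa_fst, sa_fst]; omega), e1 _ _ (by rw [sa_snd, sa_snd]; omega)⟩
      · have hij : (i : ℕ) ≠ j := fun h => by
          have : i = j := Fin.ext h
          rw [this] at hi; linarith
        refine ⟨e1 _ _ ?_, e1 _ _ ?_⟩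
        · rw [sa_fst, sb_fst]; split_ifs <;> omega
        · rw [sa_snd, sb_snd]; split_ifs <;> omega
      · have hij : (i : ℕ) ≠ j := fun h => by
          have : i = j := Fin.ext h
          rw [this] at hi; linarith
        refine ⟨e1 _ _ ?_, e1 _ _ ?_⟩
        · rw [sa_fst, sb_fst]; split_ifs <;> omega
        · rw [sa_snd, sb_snd]; split_ifs <;> omega
      · have hij : (i : ℕ) ≠ j := fun h => hpq (by rw [Fin.ext h])
        refine ⟨e1 _ _ ?_, e1 _ _ ?_⟩
        · rw [sb_fst, sb_fst]; split_ifs <;> omega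
        · rw [sb_snd, sb_snd]; split_ifs <;> omega

/-- the sphere in the complex -/
noncomputable def phi (hm : 1 ≤ m) : C(sphere (0 : EuclideanSpace ℝ (Fin (m + 1))) 1,
    realization (stirling (2 * m + 1))) where
  toFun y := ⟨fun v => (N1 y.1)⁻¹ * pre y.1 v, pre_mem hm y.2⟩
  continuous_toFun := by
    refine Continuous.subtype_mk ?_ _
    refine continuous_pi fun v => ?_
    refine Continuous.mul ?_ ?_
    · refine Continuous.inv₀ ?_ (fun y => (N1_pos y.2).ne')
      unfold N1
      fun_prop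
    · unfold pre
      refine continuous_finsetSum _ fun i _ => ?_
      split_ifs <;> fun_prop

/-- the collapse, not normalised -/
noncomputable def R (x : Fin (2 * m + 1) × Fin (2 * m + 1) → ℝ) : EuclideanSpace ℝ (Fin (m + 1)) :=
  WithLp.toLp 2 fun i => x (sa m i) - (1 - ∑ j, x (sa m j))

theorem R_ne {x} (hx : x ∈ realization (stirling (2 * m + 1))) : R x ≠ 0 := by
  classical
  intro h
  obtain ⟨h0, h1, h2⟩ := hx
  set c : ℝ := 1 - ∑ j, x (sa m j) with hc
  have h3 : ∀ i, x (sa m i) = c := by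
    intro i
    have : (R x) i = 0 := by rw [h]; rfl
    have h4 : x (sa m i) - c = 0 := this
    linarith
  have hc0 : 0 ≤ c := by rw [← h3 0]; exact h0 _
  rcases hc0.lt_or_eq with hc1 | hc1
  · have h5 : ∀ p, x p ≠ 0 → ∃ i, p = sa m i := by
      intro p hp
      refine facet h2 (fun i => ?_) p (mem_filter.2 ⟨mem_univ _, hp⟩)
      rw [mem_filter]
      exact ⟨mem_univ _, by rw [h3]; exact hc1.ne'⟩
    have h6 : ∑ v, x v = ∑ j, x (sa m j) := by
      rw [← Finset.sum_image (f := x) (s := univ) (g := sa m) (fun a _ b _ h => sa_inj h)]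
      symm
      refine Finset.sum_subset (subset_univ _) fun p _ hp => ?_
      by_contra hne
      obtain ⟨i, rfl⟩ := h5 p hne
      exact hp (mem_image_of_mem _ (mem_univ _))
    rw [h1] at h6
    rw [← h6] at hc
    linarith
  · have h5 : ∑ j, x (sa m j) = 0 := by
      refine Finset.sum_eq_zero fun j _ => ?_
      rw [h3 j, ← hc1]
    rw [h5] at hc
    linarith

/-- normalisation of a nonvanishing map -/
noncomputable def nrm {X : Type} [TopologicalSpace X] {k : ℕ}
    (f : X → EuclideanSpace ℝ (Fin k)) (hf : Continuous f) (h0 : ∀ x, f x ≠ 0) :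
    C(X, sphere (0 : EuclideanSpace ℝ (Fin k)) 1) where
  toFun x := ⟨‖f x‖⁻¹ • f x, by
    rw [mem_sphere_zero_iff_norm, norm_smul, norm_inv, norm_norm,
      inv_mul_cancel₀ (norm_ne_zero_iff.2 (h0 x))]⟩
  continuous_toFun := by
    refine Continuous.subtype_mk ?_ _
    exact (hf.norm.inv₀ fun x => norm_ne_zero_iff.2 (h0 x)).smul hf

/-- the collapse -/
noncomputable def rr : C(realization (stirling (2 * m + 1)),
    sphere (0 : EuclideanSpace ℝ (Fin (m + 1))) 1) :=
  nrm (fun x => R x.1) (by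
    unfold R
    refine (PiLp.continuous_toLp 2 _).comp (continuous_pi fun i => ?_)
    have hc : ∀ p, Continuous (fun a : realization (stirling (2 * m + 1)) => a.1 p) :=
      fun p => (continuous_apply p).comp continuous_subtype_val
    exact (hc _).sub (continuous_const.sub (continuous_finsetSum _ fun j _ => hc _)))
    (fun x => R_ne x.2)

/-- the homotopy, not normalised -/
noncomputable def G (p : unitInterval × sphere (0 : EuclideanSpace ℝ (Fin (m + 1))) 1) :
    EuclideanSpace ℝ (Fin (m + 1)) :=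
  WithLp.toLp 2 fun i => max (p.2.1 i) 0 - (1 - (p.1 : ℝ)) * ∑ j, max (-(p.2.1 j)) 0 -
    (p.1 : ℝ) * max (-(p.2.1 i)) 0

theorem G_cont : Continuous (G (m := m)) := by
  unfold G
  refine (PiLp.continuous_toLp 2 _).comp (continuous_pi fun i => ?_)
  fun_prop

theorem G_ne (p : unitInterval × sphere (0 : EuclideanSpace ℝ (Fin (m + 1))) 1) : G p ≠ 0 := by
  obtain ⟨⟨t, ht0, ht1⟩, ⟨y, hy⟩⟩ := p
  intro h
  set N : ℝ := ∑ j, max (-(y j)) 0 with hN
  have h1 : ∀ i, max (y i) 0 - (1 - t) * N - t * max (-(y i)) 0 = 0 := by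
    intro i
    have : (G (⟨⟨t, ht0, ht1⟩, ⟨y, hy⟩⟩ : unitInterval ×
      sphere (0 : EuclideanSpace ℝ (Fin (m + 1))) 1)) i = 0 := by rw [h]; rfl
    exact this
  have hNn : ∀ i, max (-(y i)) 0 ≤ N := fun i =>
    Finset.single_le_sum (f := fun j => max (-(y j)) 0) (fun j _ => le_max_right _ _) (mem_univ i)
  by_cases hneg : ∃ i, y i < 0
  · obtain ⟨i, hi⟩ := hneg
    have h2 := h1 i
    have h3 := hNn i
    have e1 : max (-(y i)) 0 = -(y i) := max_eq_left (by linarith)
    have e2 : max (y i) 0 = 0 := max_eq_right hi.le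
    rw [e1] at h2 h3
    rw [e2] at h2
    have h4 : (1 - t) * (-(y i)) ≤ (1 - t) * N := mul_le_mul_of_nonneg_left h3 (by linarith)
    nlinarith
  · push Not at hneg
    have h2 : N = 0 := Finset.sum_eq_zero fun j _ => max_eq_right (by linarith [hneg j])
    have h3 : y = 0 := by
      ext i
      have h4 := h1 i
      rw [h2, max_eq_left (hneg i), max_eq_right (by linarith [hneg i])] at h4
      simpa using h4
    rw [h3, mem_sphere_zero_iff_norm, norm_zero] at hy
    exact zero_ne_one hy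

theorem homotopic_id (hm : 1 ≤ m) : ContinuousMap.Homotopic (rr.comp (phi hm))
    (ContinuousMap.id (sphere (0 : EuclideanSpace ℝ (Fin (m + 1))) 1)) := by
  refine ⟨⟨nrm G G_cont G_ne, ?_, ?_⟩⟩
  · intro y
    apply Subtype.ext
    show ‖G (0, y)‖⁻¹ • G (0, y) = ‖R (fun v => (N1 y.1)⁻¹ * pre y.1 v)‖⁻¹ •
      R (fun v => (N1 y.1)⁻¹ * pre y.1 v)
    have hN := N1_pos y.2
    have e : R (fun v => (N1 y.1)⁻¹ * pre y.1 v) = (N1 y.1)⁻¹ • G (0, y) := by
      ext i
      show (N1 y.1)⁻¹ * pre y.1 (sa m i) - (1 - ∑ j, (N1 y.1)⁻¹ * pre y.1 (sa m j)) =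
        (N1 y.1)⁻¹ * (max (y.1 i) 0 - (1 - ((0 : unitInterval) : ℝ)) * ∑ j, max (-(y.1 j)) 0 -
          ((0 : unitInterval) : ℝ) * max (-(y.1 i)) 0)
      simp only [pre_sa hm]
      have e2 : ∑ j, max (y.1 j) 0 + ∑ j, max (-(y.1 j)) 0 = N1 y.1 := by
        unfold N1
        rw [← Finset.sum_add_distrib]
        refine Finset.sum_congr rfl fun j _ => ?_
        rcases le_total 0 (y.1 j) with h | h
        · rw [max_eq_left h, max_eq_right (by linarith), abs_of_nonneg h, add_zero]
        · rw [max_eq_right h, max_eq_left (by linarith), abs_of_nonpos h, zero_add]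
      rw [← Finset.mul_sum]
      rw [Set.Icc.coe_zero, zero_mul, sub_zero, sub_zero, one_mul]
      have e4 : (1 : ℝ) - (N1 y.1)⁻¹ * ∑ j, max (y.1 j) 0 =
          (N1 y.1)⁻¹ * ∑ j, max (-(y.1 j)) 0 := by
        have hN' := hN.ne'
        field_simp
        linarith
      rw [e4]
      ring
    rw [e, norm_smul, norm_inv, Real.norm_of_nonneg hN.le, mul_inv, inv_inv, smul_smul]
    congr 1
    field_simp
  · intro y
    apply Subtype.ext
    show ‖G (1, y)‖⁻¹ • G (1, y) = y.1
    have e : G (1, y) = y.1 := by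
      ext i
      show max (y.1 i) 0 - (1 - ((1 : unitInterval) : ℝ)) * ∑ j, max (-(y.1 j)) 0 -
          ((1 : unitInterval) : ℝ) * max (-(y.1 i)) 0 = y.1 i
      rw [Set.Icc.coe_one, sub_self, zero_mul, sub_zero, one_mul]
      rcases le_total 0 (y.1 i) with h | h
      · rw [max_eq_left h, max_eq_right (by linarith), sub_zero]
      · rw [max_eq_right h, max_eq_left (by linarith)]; ring
    rw [e, mem_sphere_zero_iff_norm.1 y.2, inv_one, one_smul]

/-- For every odd `n ≥ 3` the Stirling complex `St(n)` is not `(n-1)/2`-connected. -/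
theorem result : ∀ n : ℕ, Odd n → 3 ≤ n → ¬ IsKConnected (realization (stirling n)) ((n - 1) / 2) := by
  rintro n ⟨m, rfl⟩ hn
  have hm : 1 ≤ m := by omega
  have hk : (2 * m + 1 - 1) / 2 = m := by omega
  rw [hk]
  rintro ⟨_, h⟩
  have h1 := h m le_rfl (phi hm)
  have h2 : (rr.comp (phi hm)).Nullhomotopic := h1.comp_right rr
  obtain ⟨c, hc⟩ := h2
  exact Pool.Agent.H534R3.Rot.sphere_not_nullhomotopic (m + 1) ⟨c, (homotopic_id hm).symm.trans hc⟩

end Pool.Agent.Results.MP_2b5625_co.NotConnected
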